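import Pool.Agent.NH93.CC.C5c

/-!
# MP_7b7176_co: minimal contra pairs are cyclically 5-edge-connected

Let `(G, w)` be a minimal contra pair. Every edge cut of `G` that separates two circuits has at least five edges.
-/

set_option autoImplicit false

open Finset

namespace Pool.Agent.Results.MP_7b7176_co.CyclicallyFiveConnected

open Pool.Agent.NH93.CC
open Pool.Agent.Helper347.Sab (MGraph dg IsCircuit IsCubic)

open Classical in
theorem result (V E : Type) [Fintype V] [DecidableEq V] [Fintype E] [DecidableEq E]
    (G : MGraph V E) (w : E → ℕ) (h : MinContra G w) (X : Finset V) (Q Q' : Finset E)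
    (hQ : IsCircuit G Q) (hX : Vx G Q ⊆ X) (hQ' : IsCircuit G Q') (hX' : Vx G Q' ⊆ Xᶜ) :
    5 ≤ (univ.filter (fun e => Leaves G X e)).card := by
  by_contra hlt
  exact C5.cyc5 h (by omega) hQ hX hQ' hX'

end Pool.Agent.Results.MP_7b7176_co.CyclicallyFiveConnected
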