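import Pool.Agent.NH93.CC.GIR2

/-!
# MP_7b7176_co: minimal contra pairs have girth at least five

Let `(G, w)` be a minimal contra pair, `e₀` an edge of weight two and `F` a faithful cover of `(G - e₀, w)`. Every
circuit of `G` through `e₀` has at least `|F|` edges of weight one. Every circuit of `G` has length at least five.
-/

set_option autoImplicit false

open Finset

namespace Pool.Agent.Results.MP_7b7176_co.GirthAtLeastFive

open Pool.Agent.NH93.CC
open Pool.Agent.Helper347.Sab (MGraph dg IsCircuit IsCubic)

theorem result (V E : Type) [Fintype V] [DecidableEq V] [Fintype E] [DecidableEq E]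
    (G : MGraph V E) (w : E → ℕ) (h : MinContra G w) (Q : Finset E) (hQ : IsCircuit G Q) :
    (∀ e₀ ∈ Q, w e₀ = 2 → ∀ F : Multiset (Finset E), Cover G (del w e₀) F →
      F.card ≤ (Q.filter (fun e => w e = 1)).card) ∧ 5 ≤ Q.card :=
  ⟨fun _ h0 he _ hF => GIR.bound h he hF hQ h0, GIR.girth h hQ⟩

end Pool.Agent.Results.MP_7b7176_co.GirthAtLeastFive
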