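import Pool.Agent.NH93.CC.LNG
import Pool.Agent.NH93.CC.HAM

/-!
# MP_7b7176_co: short circuits force long circuits in minimal contra pairs

Let `(G, w)` be a minimal contra pair, `e₀ = xy` an edge of weight two and `Q` a circuit through `e₀` with `q` edges
of weight one. Then `G` has a circuit of length at least `(2 |V| - 2) / (q - 1)`. If `q = 3` (for example if `Q` has
length five), then `G - x`, `G - y` and `G - x - y` are Hamiltonian.
-/

set_option autoImplicit false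

open Finset

namespace Pool.Agent.Results.MP_7b7176_co.LongCircuits

open Pool.Agent.NH93.CC
open Pool.Agent.Helper347.Sab (MGraph dg IsCircuit IsCubic)

theorem result (V E : Type) [Fintype V] [DecidableEq V] [Fintype E] [DecidableEq E]
    (G : MGraph V E) (w : E → ℕ) (h : MinContra G w) (Q : Finset E) (hQ : IsCircuit G Q) (e₀ : E) (x y : V)
    (he₀ : e₀ ∈ Q) (he : w e₀ = 2) (hxy : G.ends e₀ = s(x, y)) (q : ℕ)
    (hq : (Q.filter (fun e => w e = 1)).card = q) :
    3 ≤ q ∧ (∃ C, IsCircuit G C ∧ 2 * Fintype.card V ≤ (q - 1) * C.card + 2) ∧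
      (q = 3 → (∃ C, IsCircuit G C ∧ ∀ v, v ∈ Vx G C ↔ v ≠ x) ∧ (∃ C, IsCircuit G C ∧ ∀ v, v ∈ Vx G C ↔ v ≠ y) ∧
        ∃ C, IsCircuit G C ∧ ∀ v, v ∈ Vx G C ↔ v ≠ x ∧ v ≠ y) := by
  refine ⟨?_, ?_, ?_⟩
  · obtain ⟨F₀, F₁, -, hF₁, -, -, h3, -⟩ := t_TWC V E G w h e₀ he
    have := GIR.bound h he hF₁ hQ he₀
    omega
  · have := LNG.long h hQ he₀ he
    rwa [hq] at this
  · intro h3
    exact HAM.ham h hQ he₀ he hxy (by omega)

end Pool.Agent.Results.MP_7b7176_co.LongCircuits
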