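import Pool.Agent.NH93.CC.Main2

/-!
# MP_7b7176_co: the faithful covers of a minimal contra pair with one edge deleted

Let `(G, w)` be a minimal contra pair. For every edge `e₀` of weight two the pair `(G - e₀, w)` has exactly two
faithful covers. One consists of an even number of circuits, the other of an odd number, at least three. Both are
circuit chains, and consecutive circuits share a positive even number of edges.
-/

set_option autoImplicit false

open Finset

namespace Pool.Agent.Results.MP_7b7176_co.TwoCovers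

open Pool.Agent.NH93.CC
open Pool.Agent.Helper347.Sab (MGraph dg IsCircuit IsCubic)

theorem result (V E : Type) [Fintype V] [DecidableEq V] [Fintype E] [DecidableEq E]
    (G : MGraph V E) (w : E → ℕ) (h : MinContra G w) (e₀ : E) (x y : V) (he : w e₀ = 2)
    (hxy : G.ends e₀ = s(x, y)) :
    ∃ F₀ F₁ : Multiset (Finset E), (∀ F, Cover G (del w e₀) F ↔ F = F₀ ∨ F = F₁) ∧
      Even F₀.card ∧ 2 ≤ F₀.card ∧ Odd F₁.card ∧ 3 ≤ F₁.card ∧
      ∀ F, F = F₀ ∨ F = F₁ → ∃ c : ℕ → Finset E, Chain G x y F F.card c ∧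
        ∀ i, i + 1 < F.card → Even (c i ∩ c (i + 1)).card ∧ 0 < (c i ∩ c (i + 1)).card := by
  obtain ⟨F₀, F₁, hF₀, hF₁, h0, h1, h2, hall⟩ := t_TWC V E G w h e₀ he
  have hch : ∀ F, Cover G (del w e₀) F → 1 ≤ F.card ∧ ∃ c : ℕ → Finset E, Chain G x y F F.card c ∧
      ∀ i, i + 1 < F.card → Even (c i ∩ c (i + 1)).card ∧ 0 < (c i ∩ c (i + 1)).card := by
    intro F hF
    obtain ⟨k, c, hc⟩ := t_CH V E G w h e₀ x y he hxy F hF
    have h3 : F.card = k := by rw [hc.eq]; simp
    rw [h3]
    exact ⟨hc.pos, c, hc, fun i hi => t_SHR V E G w h e₀ x y he hxy F k c hF hc i hi⟩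
  refine ⟨F₀, F₁, fun F => ⟨hall F, ?_⟩, h0, ?_, h1, h2, ?_⟩
  · rintro (rfl | rfl)
    · exact hF₀
    · exact hF₁
  · have h4 := (hch F₀ hF₀).1
    obtain ⟨r, hr⟩ := h0
    omega
  · rintro F (rfl | rfl)
    · exact (hch F hF₀).2
    · exact (hch F hF₁).2

end Pool.Agent.Results.MP_7b7176_co.TwoCovers
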